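import Mathlib
import Pool.Agent.R335.PP.Main
import Pool.Agent.R335.PP.Primes

/-!
# MP_29df5b_nt: the multiples of the primes do not have Poissonian pair correlations in any dimension

Let `d ≥ 2`. For almost every `α ∈ ℝ ^ d` the sequence `({p_n α})` does not have Poissonian pair
correlations. (The proof works for every sequence of positive integers `a_n = O(n log n)`.)

Proof. By the divergence part of the Khintchine-Groshev theorem for one linear form, for almost every
`α` and every `c > 0` there are infinitely many integer vectors `k` with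
`‖k · α‖ ≤ c / (|k| ^ d log |k|)`. (The sets `{α : ‖k · α‖ ≤ r_k}` for pairwise non-parallel `k` are
pairwise independent on the torus.) For such `k` and `N` of the size `C |k| ^ d` all the points
`{p_n α}`, `n ≤ N`, lie in the slab `‖k · x‖ ≤ η` of small measure `2 η`, as `p_n = O(N log N)`; by the
pigeonhole principle there are much more than `N` pairs of points at distance less than `N ^ (-1/d)`.
-/

set_option autoImplicit false

open MeasureTheory Filter Topology Finset

namespace Pool.Agent.Results.MP_29df5b_nt.PrimeMultiplesFail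

/-- The sequence `x 1, x 2, …` of vectors in `[0, 1) ^ d` has Poissonian pair correlations: for every
`s > 0` the number of pairs `k ≠ l`, `1 ≤ k, l ≤ N`, with `‖x k - x l‖ < s / N ^ (1 / d)` (maximum norm),
divided by `N`, tends to `(2 s) ^ d`. -/
def PPC (d : ℕ) (x : ℕ → Fin d → ℝ) : Prop :=
  ∀ s : ℝ, 0 < s → Tendsto (fun N : ℕ => (1 / (N : ℝ)) *
    (((Icc 1 N ×ˢ Icc 1 N).filter fun p : ℕ × ℕ => p.1 ≠ p.2 ∧
      ‖x p.1 - x p.2‖ < s / (N : ℝ) ^ ((1 : ℝ) / d)).card : ℝ)) atTop (𝓝 ((2 * s) ^ d))

/-- The sequence `{p_n α}`, `n = 1, 2, …`, where `p_1 = 2, p_2 = 3, …` are the primes and the fractional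
part is taken in each coordinate. -/
noncomputable def primeMultiples {d : ℕ} (α : Fin d → ℝ) (n : ℕ) : Fin d → ℝ :=
  fun i => Int.fract ((Nat.nth Nat.Prime (n - 1) : ℝ) * α i)

/-- For every `d ≥ 2` and almost every `α ∈ ℝ ^ d` the sequence `({p_n α})` does not have Poissonian pair
correlations. -/
theorem result (d : ℕ) (hd : 2 ≤ d) : ∀ᵐ α : Fin d → ℝ, ¬ PPC d (primeMultiples α) := by
  obtain ⟨n, rfl⟩ : ∃ n, d = n + 2 := ⟨d - 2, by omega⟩
  have h := Pool.Agent.R335.PP.main n (fun m => Nat.nth Nat.Prime (m - 1)) 4 (by norm_num) (by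
    intro t ht m hm
    rw [mem_Icc] at hm
    have := Pool.Agent.R335.PP.prime_le t ht m hm.1 hm.2
    exact_mod_cast this)
  filter_upwards [h] with α hα hP
  exact hα hP

end Pool.Agent.Results.MP_29df5b_nt.PrimeMultiplesFail
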